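import Pool.Agent.H546.F232

set_option autoImplicit false

/-!
# `∑ (4k)!/k!^4 / 396^(4k)` modulo `p²` (Q1)

The proof: the sum is the square of a Legendre polynomial modulo `p²` (Clausen); the elliptic curve
`y² = V³ - 4V² + 4zV`, `z = 1/2 - 910√29/9801`, with complex multiplication by the order of discriminant `-232`, has
isogenies of degrees `2` and `29` to its conjugate (the second is verified by an evaluation in the kernel); over the
Witt vectors of an algebraic closure of `ZMod p` a combination of these isogenies of degree `p` lifts the Frobenius,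
and comparing expansions modulo `p²` gives the value of the Legendre polynomial modulo `p²`. In the last case the
Hasse invariant vanishes.
-/

open Finset

namespace Pool.Agent.Results.MP_976fcd_nt.Ramanujan1103

/-- the sum `S_p = ∑_{k<p} (4k)!/(k!)^4 / 396^(4k)` -/
def S (p : ℕ) : ℚ := ∑ k ∈ range p, (((4 * k).factorial : ℚ) / (k.factorial : ℚ) ^ 4) / 396 ^ (4 * k)

/-- congruence modulo `p²` of rational numbers: `(a - b) / p²` has denominator prime to `p` -/
def Cong (p : ℕ) (a b : ℚ) : Prop := p.Coprime ((a - b) / (p : ℚ) ^ 2).den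

open Pool.Agent.H546

/-- **The full answer to Q1.** -/
theorem result (p : ℕ) [hp : Fact p.Prime] (h3 : 3 < p) (h11 : p ≠ 11) :
    (legendreSym p 29 = 1 → legendreSym p (-2) = 1 → ∀ x y : ℤ, (p : ℤ) = x ^ 2 + 58 * y ^ 2 →
      Cong p (S p) (4 * x ^ 2 - 2 * p)) ∧
    (legendreSym p 29 = -1 → legendreSym p (-2) = -1 → ∀ x y : ℤ, (p : ℤ) = 2 * x ^ 2 + 29 * y ^ 2 →
      Cong p (S p) (2 * p - 8 * x ^ 2)) ∧
    (legendreSym p (-58) = -1 → Cong p (S p) 0) := by
  have hmul : legendreSym p (-58) = legendreSym p 29 * legendreSym p (-2) := by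
    rw [← legendreSym.mul]; norm_num
  by_cases h29 : p = 29
  · subst h29
    have e1 : legendreSym 29 29 = 0 := by norm_num
    have e2 : legendreSym 29 (-58) = 0 := by norm_num
    refine ⟨fun h _ => ?_, fun h _ => ?_, fun h => ?_⟩
    · rw [e1] at h; exact absurd h (by norm_num)
    · rw [e1] at h; exact absurd h (by norm_num)
    · rw [e2] at h; exact absurd h (by norm_num)
  have hM : ¬ (p : ℤ) ∣ 24591257856 := ndvd_fac [(2, 8), (3, 8), (11, 4)]
    (by simp; exact ⟨⟨by norm_num, by omega⟩, ⟨by norm_num, by omega⟩, ⟨by norm_num, h11⟩⟩) (by norm_num)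
  obtain ⟨wi, hwi⟩ := inv_exists hM
  have tr : ∀ E : ℤ, ∑ k ∈ range p, (k.centralBinom : ZMod (p ^ 2)) *
      ((u4 k : ℕ) : ZMod (p ^ 2)) * wi ^ k = ((E : ℤ) : ZMod (p ^ 2)) →
      Cong p (S p) (E : ℚ) := by
    intro E hE
    have h := tr4 hM hwi E hE
    have e : S p = ∑ k ∈ range p, (((4 * k).factorial : ℚ) / (k.factorial : ℚ) ^ 4) / ((24591257856 : ℤ) : ℚ) ^ k := by
      unfold S
      refine sum_congr rfl fun k _ => ?_
      rw [pow_mul]; norm_num
    unfold Cong
    rw [e]
    exact h
  obtain ⟨m1, m2, m3⟩ := d232 p h3 h11 h29 hwi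
  have small : legendreSym p (-58) = 1 → 29 < p := by
    intro h
    by_contra hcon
    have hpp := hp.out
    have : p = 5 ∨ p = 7 ∨ p = 13 ∨ p = 17 ∨ p = 19 ∨ p = 23 := by
      interval_cases p <;> first | omega | (exfalso; revert hpp; norm_num)
    rcases this with rfl | rfl | rfl | rfl | rfl | rfl
    · have f : legendreSym 5 (-58) = -1 := by norm_num
      rw [f] at h; exact absurd h (by norm_num)
    · have f : legendreSym 7 (-58) = -1 := by norm_num
      rw [f] at h; exact absurd h (by norm_num)
    · have f : legendreSym 13 (-58) = -1 := by norm_num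
      rw [f] at h; exact absurd h (by norm_num)
    · have f : legendreSym 17 (-58) = -1 := by norm_num
      rw [f] at h; exact absurd h (by norm_num)
    · have f : legendreSym 19 (-58) = -1 := by norm_num
      rw [f] at h; exact absurd h (by norm_num)
    · have f : legendreSym 23 (-58) = -1 := by norm_num
      rw [f] at h; exact absurd h (by norm_num)
  refine ⟨fun hc1 hc2 x y hxy => ?_, fun hc1 hc2 x y hxy => ?_, fun hc => ?_⟩
  · have := tr _ (m1 hc1 hc2 (small (by rw [hmul, hc1, hc2]; norm_num)) x y hxy)
    push_cast at this; exact this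
  · have := tr _ (m2 hc1 hc2 (small (by rw [hmul, hc1, hc2]; norm_num)) x y hxy)
    push_cast at this; exact this
  · have := tr _ (m3 hc)
    push_cast at this; exact this

end Pool.Agent.Results.MP_976fcd_nt.Ramanujan1103
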